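import Pool.Agent.Helper54.PT.DefsG

/-!
# TG module E3: extension to a totally singular subspace
-/

set_option autoImplicit false

namespace Pool.Agent.Helper86.TGE3

open Finset Module Pool.Agent.Helper54.PT

section Gen

variable {ℓ : ℕ} [Fact ℓ.Prime] {ι : Type} [Fintype ι] [DecidableEq ι] (a : ι → ℕ) (i₀ : ι)

theorem ext_smul (c : ZMod ℓ) (v : {j : ι // j ≠ i₀} → ZMod ℓ) (i : ι) :
    ext a i₀ (c • v) i = c * ext a i₀ v i := by
  unfold Helper54.PT.ext
  split_ifs with h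
  · simp only [Pi.smul_apply, smul_eq_mul]
    rw [mul_neg, mul_left_comm c, Finset.mul_sum (s := univ) (a := c)]
    congr 2
    refine sum_congr rfl fun j _ => ?_
    ring
  · rfl

/-- The form as a bilinear form. -/
def B : LinearMap.BilinForm (ZMod ℓ) (LSG ℓ i₀) :=
  LinearMap.mk₂ (ZMod ℓ) (fun w w' => bG a i₀ w w')
    (fun w w' w'' => by
      simp only [bG, pzG, exG, Prod.fst_add, Prod.snd_add, ext_add, Pi.add_apply]
      rw [← sum_add_distrib]
      exact sum_congr rfl fun i _ => by ring)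
    (fun c w w' => by
      simp only [bG, pzG, exG, Prod.smul_fst, Prod.smul_snd, ext_smul, smul_eq_mul]
      rw [mul_sum]
      exact sum_congr rfl fun i _ => by ring)
    (fun w w' w'' => by
      simp only [bG, pzG, exG, Prod.fst_add, Prod.snd_add, ext_add, Pi.add_apply]
      rw [← sum_add_distrib]
      exact sum_congr rfl fun i _ => by ring)
    (fun c w w' => by
      simp only [bG, pzG, exG, Prod.smul_fst, Prod.smul_snd, ext_smul, smul_eq_mul]
      rw [mul_sum]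
      exact sum_congr rfl fun i _ => by ring)

theorem B_apply (w w' : LSG ℓ i₀) : B a i₀ w w' = bG a i₀ w w' := rfl

theorem bG_self (w : LSG ℓ i₀) : bG a i₀ w w = 0 := by
  unfold bG pzG
  exact sum_eq_zero fun i _ => by ring

theorem B_alt : (B (ℓ := ℓ) a i₀).IsAlt := fun w => bG_self a i₀ w

theorem sum_ext (ha : (a i₀ : ZMod ℓ) ≠ 0) (v : {j : ι // j ≠ i₀} → ZMod ℓ) :
    ∑ i, (a i : ZMod ℓ) * ext a i₀ v i = 0 := by
  have h1 : ∑ i, (a i : ZMod ℓ) * ext a i₀ v i = (a i₀ : ZMod ℓ) * ext a i₀ v i₀ +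
      ∑ j : {j : ι // j ≠ i₀}, (a j.1 : ZMod ℓ) * ext a i₀ v j.1 := by
    rw [← Finset.sum_erase_add univ _ (Finset.mem_univ i₀), add_comm]
    congr 1
    exact Finset.sum_subtype (univ.erase i₀) (fun x => by simp) _
  rw [h1]
  have h2 : ext a i₀ v i₀ = -((a i₀ : ZMod ℓ)⁻¹ * ∑ j : {j : ι // j ≠ i₀}, (a j.1 : ZMod ℓ) * v j) := by
    unfold Helper54.PT.ext
    rw [dif_pos rfl]
  have h3 : ∀ j : {j : ι // j ≠ i₀}, ext a i₀ v j.1 = v j := by
    intro j
    unfold Helper54.PT.ext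
    rw [dif_neg j.2]
  have h4 : ∑ j : {j : ι // j ≠ i₀}, (a j.1 : ZMod ℓ) * ext a i₀ v j.1 =
      ∑ j : {j : ι // j ≠ i₀}, (a j.1 : ZMod ℓ) * v j := sum_congr rfl fun j _ => by rw [h3 j]
  rw [h2, h4]
  field_simp
  ring

/-- the pairing of `x` and the extension of a vector -/
theorem pair_eq (ha : (a i₀ : ZMod ℓ) ≠ 0) (x : ι → ZMod ℓ) (j₀ : {j : ι // j ≠ i₀}) :
    ∑ i, (a i : ZMod ℓ) * (x i * ext a i₀ (Pi.single j₀ 1) i) =
      (a j₀.1 : ZMod ℓ) * (x j₀.1 - x i₀) := by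
  have h1 : ∑ i, (a i : ZMod ℓ) * (x i * ext a i₀ (Pi.single j₀ 1) i) =
      (a i₀ : ZMod ℓ) * (x i₀ * ext a i₀ (Pi.single j₀ 1) i₀) +
      ∑ j : {j : ι // j ≠ i₀}, (a j.1 : ZMod ℓ) * (x j.1 * ext a i₀ (Pi.single j₀ 1) j.1) := by
    rw [← Finset.sum_erase_add univ _ (Finset.mem_univ i₀), add_comm]
    congr 1
    exact Finset.sum_subtype (univ.erase i₀) (fun x => by simp) _
  rw [h1]
  have h2 : ext a i₀ (Pi.single j₀ 1) i₀ = -((a i₀ : ZMod ℓ)⁻¹ * (a j₀.1 : ZMod ℓ)) := by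
    unfold Helper54.PT.ext
    rw [dif_pos rfl]
    congr 2
    rw [Finset.sum_eq_single j₀]
    · simp
    · intro j _ hj
      rw [Pi.single_eq_of_ne hj, mul_zero]
    · intro h
      exact absurd (Finset.mem_univ _) h
  have h3 : ∀ j : {j : ι // j ≠ i₀}, ext a i₀ (Pi.single j₀ (1 : ZMod ℓ)) j.1 =
      (Pi.single j₀ (1 : ZMod ℓ) : {j : ι // j ≠ i₀} → ZMod ℓ) j := by
    intro j
    unfold Helper54.PT.ext
    rw [dif_neg j.2]
  rw [h2, sum_congr rfl (g := fun j : {j : ι // j ≠ i₀} => (a j.1 : ZMod ℓ) * (x j.1 *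
    (Pi.single j₀ (1 : ZMod ℓ) : {j : ι // j ≠ i₀} → ZMod ℓ) j)) fun j _ => by rw [h3 j]]
  rw [Finset.sum_eq_single j₀ (fun j _ hj => by rw [Pi.single_eq_of_ne hj]; ring)
    (fun h => absurd (Finset.mem_univ _) h), Pi.single_eq_same]
  field_simp
  ring

theorem const_zero (ha : ∀ i, ¬ ℓ ∣ a i) (hs : ¬ ℓ ∣ ∑ i, a i) (v : {j : ι // j ≠ i₀} → ZMod ℓ)
    (h : ∀ j₀ : {j : ι // j ≠ i₀},
      ∑ i, (a i : ZMod ℓ) * (ext a i₀ v i * ext a i₀ (Pi.single j₀ 1) i) = 0) : v = 0 := by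
  have ha' : ∀ i, (a i : ZMod ℓ) ≠ 0 := fun i h0 => ha i ((ZMod.natCast_eq_zero_iff _ _).1 h0)
  have h1 : ∀ j₀ : {j : ι // j ≠ i₀}, ext a i₀ v j₀.1 = ext a i₀ v i₀ := by
    intro j₀
    have := h j₀
    rw [pair_eq a i₀ (ha' i₀)] at this
    rcases mul_eq_zero.1 this with h' | h'
    · exact absurd h' (ha' _)
    · exact sub_eq_zero.1 h'
  have h2 : ∀ i, ext a i₀ v i = ext a i₀ v i₀ := by
    intro i
    by_cases hi : i = i₀
    · rw [hi]
    · exact h1 ⟨i, hi⟩
  have h3 := sum_ext a i₀ (ha' i₀) v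
  rw [sum_congr rfl fun i _ => by rw [h2 i], ← sum_mul] at h3
  have h4 : (∑ i, (a i : ZMod ℓ)) ≠ 0 := by
    intro h0
    apply hs
    rw [← ZMod.natCast_eq_zero_iff]
    push_cast
    exact h0
  have h5 : ext a i₀ v i₀ = 0 := by
    rcases mul_eq_zero.1 h3 with h' | h'
    · exact absurd h' h4
    · exact h'
  funext j
  have h6 : ext a i₀ v j.1 = v j := by
    unfold Helper54.PT.ext
    rw [dif_neg j.2]
  rw [← h6, h2, h5, Pi.zero_apply]

theorem sep (ha : ∀ i, ¬ ℓ ∣ a i) (hs : ¬ ℓ ∣ ∑ i, a i) (w : LSG ℓ i₀)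
    (h : ∀ w', bG a i₀ w w' = 0) : w = 0 := by
  refine Prod.ext ?_ ?_
  · refine const_zero a i₀ ha hs _ fun j₀ => ?_
    have := h (0, Pi.single j₀ 1)
    unfold bG at this
    rw [← this]
    refine sum_congr rfl fun i _ => ?_
    simp only [pzG, exG, ext_zero]
    ring
  · refine const_zero a i₀ ha hs _ fun j₀ => ?_
    have := h (Pi.single j₀ 1, 0)
    unfold bG at this
    rw [← neg_eq_zero, ← this, ← sum_neg_distrib]
    refine sum_congr rfl fun i _ => ?_
    simp only [pzG, exG, ext_zero]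
    ring

theorem bG_swap (w w' : LSG ℓ i₀) : bG a i₀ w w' = -bG a i₀ w' w := by
  unfold bG pzG
  rw [← sum_neg_distrib]
  exact sum_congr rfl fun i _ => by ring

theorem nondeg (ha : ∀ i, ¬ ℓ ∣ a i) (hs : ¬ ℓ ∣ ∑ i, a i) : (B (ℓ := ℓ) a i₀).Nondegenerate := by
  refine ⟨fun w h => sep a i₀ ha hs w h, fun w h => sep a i₀ ha hs w fun w' => ?_⟩
  have := h w'
  rw [B_apply, bG_swap] at this
  exact neg_eq_zero.1 this

omit [Fact ℓ.Prime] in
theorem finrank_LSG [Fact ℓ.Prime] : finrank (ZMod ℓ) (LSG ℓ i₀) =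
    2 * Fintype.card {j : ι // j ≠ i₀} := by
  rw [Module.finrank_prod, Module.finrank_fintype_fun_eq_card]
  ring

end Gen

section Two

variable {ι : Type} [Fintype ι] [DecidableEq ι] {a : ι → ℕ} {i₀ : ι}

theorem qG_add (ha : ∀ i, ¬ 2 ∣ a i) (g : ι → ZMod 2 × ZMod 2) (w w' : LSG 2 i₀) :
    qG a i₀ g (w + w') = qG a i₀ g w + qG a i₀ g w' + bG a i₀ w w' := by
  have ha1 : ∀ i, (a i : ZMod 2) = 1 := by
    intro i
    have h0 : (a i : ZMod 2) ≠ 0 := fun h0 => ha i ((ZMod.natCast_eq_zero_iff _ _).1 h0)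
    revert h0
    generalize (a i : ZMod 2) = x
    revert x
    decide
  unfold qG bG
  rw [← sum_add_distrib, ← sum_add_distrib]
  refine sum_congr rfl fun i _ => ?_
  rw [ha1 i]
  simp only [pzG, exG, Prod.fst_add, Prod.snd_add, ext_add, Pi.add_apply]
  generalize ext a i₀ w.1 i = x
  generalize ext a i₀ w.2 i = y
  generalize ext a i₀ w'.1 i = x'
  generalize ext a i₀ w'.2 i = y'
  generalize (g i).1 = u
  generalize (g i).2 = v
  revert x y x' y' u v
  decide

omit [Fintype ι] [DecidableEq ι] in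
theorem zmod2_cases (c : ZMod 2) : c = 0 ∨ c = 1 := by
  revert c
  decide

theorem qG_zero (g : ι → ZMod 2 × ZMod 2) : qG a i₀ g 0 = 0 := by
  unfold qG
  refine sum_eq_zero fun i _ => ?_
  simp only [pzG, exG, Prod.fst_zero, Prod.snd_zero, ext_zero]
  ring

end Two

end Pool.Agent.Helper86.TGE3

namespace Pool.Agent.Helper54.PT

open Finset Module Pool.Agent.Helper86.TGE3

section LagTwo

variable {ι : Type} [Fintype ι] [DecidableEq ι] {a : ι → ℕ} {i₀ : ι}

/-- E3: extension to a totally singular subspace (uses E2) -/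
theorem exists_lagQ (ha : ∀ i, ¬ 2 ∣ a i) (hs : ¬ 2 ∣ ∑ i, a i) (g : ι → ZMod 2 × ZMod 2)
    (N : Submodule (ZMod 2) (LSG 2 i₀)) (hN : finrank (ZMod 2) N = Fintype.card {j : ι // j ≠ i₀})
    (hNq : ∀ w ∈ N, qG a i₀ g w = 0) (W : Set (LSG 2 i₀))
    (hW : ∀ w ∈ W, ∀ w' ∈ W, bG a i₀ w w' = 0) (hWq : ∀ w ∈ W, qG a i₀ g w = 0) :
    ∃ M : Submodule (ZMod 2) (LSG 2 i₀),
      finrank (ZMod 2) M = Fintype.card {j : ι // j ≠ i₀} ∧
      (∀ w ∈ M, ∀ w' ∈ M, bG a i₀ w w' = 0) ∧ (∀ w ∈ M, qG a i₀ g w = 0) ∧ W ⊆ M := by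
  have : Fact (Nat.Prime 2) := ⟨Nat.prime_two⟩
  set F := B (ℓ := 2) a i₀ with hF
  have hnd : F.Nondegenerate := nondeg a i₀ ha hs
  have hrefl : F.IsRefl := (B_alt a i₀).isRefl
  have hdim : finrank (ZMod 2) (LSG 2 i₀) = 2 * Fintype.card {j : ι // j ≠ i₀} := finrank_LSG i₀
  -- singular submodules are isotropic
  have hiso : ∀ P : Submodule (ZMod 2) (LSG 2 i₀), (∀ w ∈ P, qG a i₀ g w = 0) →
      ∀ w ∈ P, ∀ w' ∈ P, bG a i₀ w w' = 0 := by
    intro P hP w hw w' hw'
    have h := qG_add ha g w w'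
    rw [hP _ hw, hP _ hw', hP _ (P.add_mem hw hw')] at h
    simpa using h.symm
  set W' : Submodule (ZMod 2) (LSG 2 i₀) := Submodule.span (ZMod 2) W with hW'
  have hb1 : ∀ x ∈ W', ∀ w ∈ W, bG a i₀ x w = 0 := by
    intro x hx w hw
    induction hx using Submodule.span_induction with
    | mem x hx => exact hW x hx w hw
    | zero => exact (F.zero_left w)
    | add x y _ _ h1 h2 =>
      have := F.add_left x y w
      simp only [hF, B_apply] at this
      rw [this, h1, h2, add_zero]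
    | smul c x _ h1 =>
      have := F.smul_left c x w
      simp only [hF, B_apply] at this
      rw [this, h1, mul_zero]
  have hb2 : ∀ x ∈ W', ∀ y ∈ W', bG a i₀ x y = 0 := by
    intro x hx y hy
    induction hy using Submodule.span_induction with
    | mem y hy => exact hb1 x hx y hy
    | zero => exact (F.zero_right x)
    | add y z _ _ h1 h2 =>
      have := F.add_right x y z
      simp only [hF, B_apply] at this
      rw [this, h1, h2, add_zero]
    | smul c y _ h1 =>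
      have := F.smul_right c x y
      simp only [hF, B_apply] at this
      rw [this, h1, mul_zero]
  have hq : ∀ x ∈ W', qG a i₀ g x = 0 := by
    intro x hx
    induction hx using Submodule.span_induction with
    | mem x hx => exact hWq x hx
    | zero => exact qG_zero g
    | add x y hx hy h1 h2 => rw [qG_add ha, h1, h2, hb2 x hx y hy]; simp
    | smul c x _ h1 =>
      have hc := zmod2_cases c
      rcases hc with hc | hc
      · rw [hc, zero_smul, qG_zero]
      · rw [hc, one_smul, h1]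
  -- `N` is its own orthogonal
  have hNN : F.orthogonal N = N := by
    refine (Submodule.eq_of_le_of_finrank_eq ?_ ?_).symm
    · intro x hx
      rw [LinearMap.BilinForm.mem_orthogonal_iff]
      intro y hy
      exact hiso N hNq y hy x hx
    · rw [LinearMap.BilinForm.finrank_orthogonal hnd, hN, hdim]
      omega
  set Q := F.orthogonal W' ⊓ N with hQ
  have hWW : W' ≤ F.orthogonal W' := by
    intro x hx
    rw [LinearMap.BilinForm.mem_orthogonal_iff]
    intro y hy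
    exact hb2 y hy x hx
  have hQ' : F.orthogonal (W' ⊔ N) = Q := by
    rw [hQ]
    conv_rhs => rw [← hNN]
    ext x
    simp only [Submodule.mem_inf, LinearMap.BilinForm.mem_orthogonal_iff]
    constructor
    · intro h
      exact ⟨fun n hn => h n (Submodule.mem_sup_left hn), fun n hn => h n (Submodule.mem_sup_right hn)⟩
    · rintro ⟨h1, h2⟩ n hn
      obtain ⟨y, hy, z, hz, rfl⟩ := Submodule.mem_sup.1 hn
      rw [F.add_left, h1 y hy, h2 z hz, add_zero]
  have hd1 : finrank (ZMod 2) Q = 2 * Fintype.card {j : ι // j ≠ i₀} -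
      finrank (ZMod 2) (W' ⊔ N : Submodule (ZMod 2) (LSG 2 i₀)) := by
    rw [← hQ', LinearMap.BilinForm.finrank_orthogonal hnd, hdim]
  have hd1' : finrank (ZMod 2) (W' ⊔ N : Submodule (ZMod 2) (LSG 2 i₀)) ≤
      2 * Fintype.card {j : ι // j ≠ i₀} := by
    rw [← hdim]
    exact Submodule.finrank_le _
  have hd2 := Submodule.finrank_sup_add_finrank_inf_eq W' N
  have hd3 := Submodule.finrank_sup_add_finrank_inf_eq W' Q
  have hinf : W' ⊓ Q = W' ⊓ N := by
    rw [hQ, ← inf_assoc, inf_eq_left.2 hWW]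
  rw [hinf] at hd3
  refine ⟨W' ⊔ Q, ?_, ?_, ?_, ?_⟩
  · omega
  · refine hiso _ ?_
    intro w hw
    obtain ⟨x, hx, y, hy, rfl⟩ := Submodule.mem_sup.1 hw
    rw [qG_add ha, hq x hx, hNq y hy.2]
    have := (LinearMap.BilinForm.mem_orthogonal_iff.1 hy.1) x hx
    rw [hF, B_apply] at this
    rw [this]
    simp
  · intro w hw
    obtain ⟨x, hx, y, hy, rfl⟩ := Submodule.mem_sup.1 hw
    rw [qG_add ha, hq x hx, hNq y hy.2]
    have := (LinearMap.BilinForm.mem_orthogonal_iff.1 hy.1) x hx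
    rw [hF, B_apply] at this
    rw [this]
    simp
  · intro w hw
    exact Submodule.mem_sup_left (Submodule.subset_span hw)

end LagTwo

end Pool.Agent.Helper54.PT
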